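import Pool.Agent.D0H44.DM.Stm

set_option autoImplicit false

namespace Pool.Agent.D0H44.DM

open MeasureTheory Set Filter

noncomputable section

/-- `|ζ(1/2 + it)|^(2k)` -/
def zk (k : ℕ) (t : ℝ) : ℝ := ‖riemannZeta (1 / 2 + Complex.I * t)‖ ^ (2 * k)

lemma zk_cont (k : ℕ) : Continuous (zk k) := by
  unfold zk
  refine (continuous_norm.comp ?_).pow _
  rw [continuous_iff_continuousAt]
  intro t
  have h1 : (1 / 2 + Complex.I * (t : ℂ)) ≠ 1 := by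
    intro h
    have := congrArg Complex.re h
    norm_num at this
  exact ContinuousAt.comp (f := fun t : ℝ => (1 / 2 + Complex.I * (t : ℂ)))
    (differentiableAt_riemannZeta h1).continuousAt (by fun_prop)

lemma zk_nonneg (k : ℕ) (t : ℝ) : 0 ≤ zk k t := by
  unfold zk
  positivity

lemma zk_sq (k : ℕ) (t : ℝ) : zk k t ^ 2 = zk (2 * k) t := by
  unfold zk
  rw [← pow_mul]
  congr 1
  ring

/-- the moment bound `∫_0^T |ζ(1/2+it)|^(2m) dt ≤ C T^(A + ε)` -/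
def MB (m : ℕ) (A : ℝ) : Prop :=
  ∀ ε : ℝ, 0 < ε → ∃ C : ℝ, ∀ T : ℝ, 1 ≤ T → ∫ t in (0:ℝ)..T, zk m t ≤ C * T ^ (A + ε)

lemma mom_of (k : ℕ) (A : ℝ) (h : MB (2 * k) A) : Mom (zk k) A := by
  intro ε hε
  obtain ⟨C, hC⟩ := h ε hε
  refine ⟨C, fun T hT => ?_⟩
  simp only [zk_sq]
  exact hC T hT

theorem fin (hG : S_GEN) (hZ : S_ZM) (hE : S_EQV) (k : ℕ) (hk : 1 ≤ k) :
    MB (2 * k) ((2 * k + 1) / 3) ∧
    (∀ A : ℝ, 0 ≤ A → MB (2 * k) A →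
      ∀ᵐ p : ℝ × ℝ, 0 < p.1 → ∀ ε : ℝ, 0 < ε → ∃ C : ℝ, ∀ N : ℕ, 1 ≤ N →
        |(∑ n ∈ Finset.Icc 1 N, zk k (p.1 * n + p.2)) - (∫ t in (0:ℝ)..(p.1 * N), zk k t) / p.1| ≤
          C * (N : ℝ) ^ (A / 2 + ε)) ∧
    (MB (2 * k) 1 → ∀ P : Polynomial ℝ,
      ((∀ ε : ℝ, 0 < ε → ∃ C : ℝ, ∀ T : ℝ, 1 ≤ T →
          |(∫ t in (0:ℝ)..T, zk k t) - ∫ t in (0:ℝ)..T, P.eval (Real.log (t / (2 * Real.pi)))| ≤
            C * T ^ (1 / 2 + ε)) ↔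
        ∀ᵐ p : ℝ × ℝ, 0 < p.1 → ∀ ε : ℝ, 0 < ε → ∃ C : ℝ, ∀ N : ℕ, 1 ≤ N →
          |(∑ n ∈ Finset.Icc 1 N, zk k (p.1 * n + p.2)) -
            (∫ t in (0:ℝ)..(p.1 * N), P.eval (Real.log (t / (2 * Real.pi)))) / p.1| ≤
              C * (N : ℝ) ^ (1 / 2 + ε))) := by
  refine ⟨?_, ?_, ?_⟩
  · intro ε hε
    obtain ⟨C, hC⟩ := hZ k hk ε hε
    refine ⟨C, fun T hT => ?_⟩
    have h := hC T hT
    have e : ∀ t : ℝ, zk (2 * k) t = (‖riemannZeta (1 / 2 + Complex.I * t)‖ ^ (2 * k)) ^ 2 := by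
      intro t
      rw [← zk_sq]
      rfl
    simp only [e]
    exact h
  · intro A hA h
    exact hG (zk k) A (zk_cont k) (zk_nonneg k) hA (mom_of k A h)
  · intro h P
    exact hE (zk k) P (zk_cont k) (zk_nonneg k) (mom_of k 1 h)

end

end Pool.Agent.D0H44.DM
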