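import Pool.Agent.D0H44.DM.Gen0
import Pool.Agent.D0H44.DM.Fin
import Pool.Agent.D0H85.DM.Zm
import Pool.Agent.D0H18.DM.Sup
import Pool.Agent.D0H22.DM.Fd
import Pool.Agent.D0H24.DM.Kp
import Pool.Agent.D0H35.DM.Kd
import Pool.Agent.D0H35.DM.Kl
import Pool.Agent.D0H65.DM.Kf
import Pool.Agent.D0H65.DM.Zd
import Pool.Agent.D0H74.DM.Bc2
import Pool.Agent.D0H74.DM.Pt
import Pool.Agent.D0H9.DM.Eqv2
import Pool.Agent.D0H9.DM.Gen2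

set_option autoImplicit false

namespace Pool.Agent.D0H44.DM

open MeasureTheory Set Filter

noncomputable section

theorem t_BC2 : S_BC2 :=
  Pool.Agent.D0H74.DM.t_BC2 t_L2 Pool.Agent.D0H30.DM.t_DYA Pool.Agent.D0H35.DM.t_MS

theorem t_SUP : S_SUP := Pool.Agent.D0H18.DM.t_SUP Pool.Agent.D0H70.DM.t_UF

theorem t_GEN2 : S_GEN2 := Pool.Agent.D0H9.DM.t_GEN2 t_BC2 t_SUP Pool.Agent.D0H74.DM.t_PT

theorem t_EQV2 : S_EQV2 := Pool.Agent.D0H9.DM.t_EQV2 Pool.Agent.D0H52.DM.t_LOGP t_GEN2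

theorem t_ZD : S_ZD :=
  Pool.Agent.D0H65.DM.t_ZD (Pool.Agent.D0H24.DM.t_KP Pool.Agent.D0H35.DM.t_KD Pool.Agent.D0H35.DM.t_KL
    Pool.Agent.D0H65.DM.t_KF)

lemma zk_zl (k : ℕ) (t : ℝ) : zk k t = ‖zl t‖ ^ (2 * k) := rfl

lemma zk_cd (k : ℕ) (hk : 1 ≤ k) : ContDiff ℝ 1 (zk k) := (Pool.Agent.D0H22.DM.t_FD k hk).1

lemma mom_deriv (k : ℕ) (hk : 1 ≤ k) (A : ℝ) (hA : 1 ≤ A) (h : MB (2 * k) A) : Mom (deriv (zk k)) A := by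
  intro ε hε
  obtain ⟨hcd, hcz, C, hC, hb⟩ := Pool.Agent.D0H22.DM.t_FD k hk
  obtain ⟨C1, h1⟩ := h ε hε
  obtain ⟨C2, h2⟩ := t_ZD (2 * k) (by omega) A hA h ε hε
  refine ⟨C * (C1 + C2), fun T hT => ?_⟩
  have hT0 : (0:ℝ) ≤ T := by linarith
  have e4 : 2 * (2 * k) = 4 * k := by ring
  have c1 : Continuous fun t : ℝ => ‖zl t‖ ^ (4 * k) := by
    have e : (fun t : ℝ => ‖zl t‖ ^ (4 * k)) = zk (2 * k) := by
      funext t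
      rw [zk_zl, e4]
    rw [e]
    exact zk_cont (2 * k)
  have c2 : Continuous fun t : ℝ => ‖zd t‖ ^ (4 * k) := (continuous_norm.comp hcz).pow _
  have c3 : Continuous fun t : ℝ => deriv (zk k) t ^ 2 :=
    ((zk_cd k hk).continuous_deriv le_rfl).pow 2
  have i1 : ∫ t in (0:ℝ)..T, deriv (zk k) t ^ 2 ≤
      ∫ t in (0:ℝ)..T, C * (‖zl t‖ ^ (4 * k) + ‖zd t‖ ^ (4 * k)) := by
    apply intervalIntegral.integral_mono_on hT0 (c3.intervalIntegrable _ _)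
      ((continuous_const.mul (c1.add c2)).intervalIntegrable _ _)
    intro t _
    exact hb t
  have i2 : ∫ t in (0:ℝ)..T, C * (‖zl t‖ ^ (4 * k) + ‖zd t‖ ^ (4 * k)) =
      C * ((∫ t in (0:ℝ)..T, ‖zl t‖ ^ (4 * k)) + ∫ t in (0:ℝ)..T, ‖zd t‖ ^ (4 * k)) := by
    rw [intervalIntegral.integral_const_mul, intervalIntegral.integral_add
      (c1.intervalIntegrable _ _) (c2.intervalIntegrable _ _)]
  have g1 := h1 T hT
  have g2 := h2 T hT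
  simp only [zk_zl, e4] at g1
  rw [e4] at g2
  rw [i2] at i1
  refine i1.trans ?_
  rw [mul_assoc]
  apply mul_le_mul_of_nonneg_left _ hC.le
  rw [add_mul]
  exact add_le_add g1 g2

/-- the final form: for almost every `α` and every `β` -/
theorem main (k : ℕ) (hk : 1 ≤ k) :
    MB (2 * k) ((2 * k + 1) / 3) ∧
    (∀ A : ℝ, 1 ≤ A → MB (2 * k) A →
      ∀ᵐ α : ℝ, 0 < α → ∀ B ε : ℝ, 0 < ε → ∃ C : ℝ, ∀ β : ℝ, |β| ≤ B → ∀ N : ℕ, 1 ≤ N →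
        |(∑ n ∈ Finset.Icc 1 N, zk k (α * n + β)) - (∫ t in (0:ℝ)..(α * N), zk k t) / α| ≤
          C * (N : ℝ) ^ (A / 2 + ε)) ∧
    (MB (2 * k) 1 → ∀ P : Polynomial ℝ,
      (CF (zk k) P ↔ ∀ᵐ α : ℝ, 0 < α → ∀ β : ℝ, DF (zk k) P α β) ∧
      (CF (zk k) P ↔ ¬ ∀ᵐ α : ℝ, 0 < α → ∀ β : ℝ, ¬ DF (zk k) P α β)) := by
  obtain ⟨h1, -, -⟩ := fin t_GEN Pool.Agent.D0H85.DM.t_ZM t_EQV k hk
  refine ⟨h1, ?_, ?_⟩
  · intro A hA h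
    exact t_GEN2 (zk k) A (zk_cd k hk) (zk_nonneg k) (by linarith) (mom_of k A h) (mom_deriv k hk A hA h)
  · intro h P
    exact t_EQV2 (zk k) P (zk_cd k hk) (zk_nonneg k) (mom_of k 1 h) (mom_deriv k hk 1 le_rfl h)

end

end Pool.Agent.D0H44.DM
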