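import Pool.Agent.D0H85.DM.Hs
import Pool.Agent.D0H10.DM.Avg
import Pool.Agent.D0H70.DM.Uf
import Pool.Agent.D0H70.DM.Ggp
import Pool.Agent.D0H35.DM.Unf
import Pool.Agent.D0H35.DM.Ms
import Pool.Agent.D0H19.DM.L2
import Pool.Agent.D0H30.DM.Dya
import Pool.Agent.D0H30.DM.Bc
import Pool.Agent.D0H9.DM.Gen
import Pool.Agent.D0H9.DM.Eqv
import Pool.Agent.D0H52.DM.Logp

set_option autoImplicit false

namespace Pool.Agent.D0H44.DM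

theorem t_L2 : S_L2 :=
  Pool.Agent.D0H19.DM.t_L2 (Pool.Agent.D0H10.DM.t_AVG Pool.Agent.D0H85.DM.t_HS) Pool.Agent.D0H70.DM.t_GGP
    (Pool.Agent.D0H35.DM.t_UNF Pool.Agent.D0H70.DM.t_UF Pool.Agent.D0H70.DM.t_GGP) Pool.Agent.D0H35.DM.t_MS

theorem t_BC : S_BC := Pool.Agent.D0H30.DM.t_BC t_L2 Pool.Agent.D0H30.DM.t_DYA Pool.Agent.D0H35.DM.t_MS

theorem t_GEN : S_GEN := Pool.Agent.D0H9.DM.t_GEN t_BC

theorem t_EQV : S_EQV := Pool.Agent.D0H9.DM.t_EQV Pool.Agent.D0H52.DM.t_LOGP t_GEN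

end Pool.Agent.D0H44.DM
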