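import Mathlib

set_option autoImplicit false

/-!
Discrete moments along almost every arithmetic progression (problem MP_07318d_nt, slot 4). Statements with proofs in words.

`f` is continuous and nonnegative; `D(α, β) = ∑ f(α n + β) - (1/α) ∫ f` over the part in `(x, y]`. The mean square of `D` over
`0 ≤ β ≤ α`, `a ≤ α ≤ 2a` is at most `C (1 + log X) ∫ f²`; dyadic maximal inequality and Borel-Cantelli.
-/

namespace Pool.Agent.D0H44.DM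

open MeasureTheory Set Filter

noncomputable section

/-- the part of `f` on `(x, y]` -/
def ct (f : ℝ → ℝ) (x y : ℝ) : ℝ → ℝ := (Ioc x y).indicator f

/-- the sum of `f` over the points `α n + β` (`n` an integer) in `(x, y]` -/
def sm (f : ℝ → ℝ) (x y α β : ℝ) : ℝ := ∑' n : ℤ, ct f x y (α * n + β)

/-- the discrepancy -/
def dd (f : ℝ → ℝ) (x y α β : ℝ) : ℝ := sm f x y α β - (∫ t in x..y, f t) / α

/-- the correlation -/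
def GG (f : ℝ → ℝ) (x y w : ℝ) : ℝ := ∫ v, ct f x y v * ct f x y (v + w)

/-- **1 HS.** Harmonic sums over `[y/2, y)`. For `y ≤ 1` the sum is empty. For `y > 1`: upper bound
`1/⌈y/2⌉ + ∫_{⌈y/2⌉}^{⌈y⌉-1} dx/x ≤ 2/y + log 2`; lower bound `∫_{⌈y/2⌉}^{⌈y⌉} dx/x ≥ log (y / (y/2 + 1)) ≥ log 2 - 2/y`. -/
def S_HS : Prop := ∀ y : ℝ, 0 < y →
  |(∑ h ∈ Finset.Icc 1 ⌈y⌉₊, if y / 2 ≤ (h : ℝ) ∧ (h : ℝ) < y then (1:ℝ) / h else 0) - Real.log 2| ≤ 2 / y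

/-- **2 AVG.** For `G` even, `0 ≤ G ≤ K`, zero outside `[-X, X]`:
`∫_a^{2a} (∑_{h ∈ ℤ} G(α h) - (1/α) ∫ G) dα = a G(0) + 2 ∑_{h ≥ 1} (1/h) ∫_{ah}^{2ah} G - 2 log 2 ∫_0^∞ G
= a G(0) + 2 ∫_0^∞ G(w) (∑_{w/(2a) ≤ h < w/a} 1/h - log 2) dw ≤ a K + 2 K ∫_0^X min(1, 2a/w) dw`. The sum over `h` is finite (`|h| ≤ X/a`).
(`S_HS` with `y = w/a`; for `y ≤ 1` the sum is empty and `log 2 ≤ 1`.) -/
def S_AVG : Prop := ∀ a : ℝ, 0 < a → ∃ C : ℝ, 0 < C ∧ ∀ (G : ℝ → ℝ) (X K : ℝ), 1 ≤ X → Measurable G →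
  (∀ w, 0 ≤ G w) → (∀ w, G w ≤ K) → (∀ w, G (-w) = G w) → (∀ w, X < |w| → G w = 0) →
  IntervalIntegrable (fun α => (∑' h : ℤ, G (α * h)) - (∫ w, G w) / α) volume a (2 * a) ∧
  ∫ α in a..(2 * a), ((∑' h : ℤ, G (α * h)) - (∫ w, G w) / α) ≤ C * (1 + Real.log X) * K

/-- **3 UF.** Unfolding: `∫_0^α ∑_n φ(α n + β) dβ = ∫ φ` (for instance `isAddFundamentalDomain_Ioc`, or a finite sum of integrals
over adjacent intervals: only `|n| ≤ R/α + 1` matter). -/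
def S_UF : Prop := ∀ (φ : ℝ → ℝ) (M R α : ℝ), Measurable φ → (∀ v, |φ v| ≤ M) → (∀ v, R < |v| → φ v = 0) → 0 < α →
  IntervalIntegrable (fun β => ∑' n : ℤ, φ (α * n + β)) volume 0 α ∧
  ∫ β in (0:ℝ)..α, ∑' n : ℤ, φ (α * n + β) = ∫ v, φ v

/-- **4 GGP.** The correlation: measurable (parametric integral), `0 ≤ G(w) ≤ ∫ f²` (AM-GM), even (substitution `v ↦ v - w`),
zero for `|w| > y - x`, and `∫ G = (∫ f)²` (Fubini). -/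
def S_GGP : Prop := ∀ f : ℝ → ℝ, Continuous f → (∀ t, 0 ≤ f t) → ∀ x y : ℝ, x ≤ y →
  Measurable (GG f x y) ∧ (∀ w, 0 ≤ GG f x y w) ∧ (∀ w, GG f x y w ≤ ∫ t in x..y, f t ^ 2) ∧
  (∀ w, GG f x y (-w) = GG f x y w) ∧ (∀ w, y - x < |w| → GG f x y w = 0) ∧
  ∫ w, GG f x y w = (∫ t in x..y, f t) ^ 2

/-- **5 UNF.** For fixed `α > 0`: `∫_0^α D² dβ = ∑_h G(α h) - (1/α) ∫ G`. Proof: `sm` is periodic in `β` with period `α`, so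
`sm(β)² = ∑_n φ(α n + β)` with `φ(v) = ct(v) sm(v)`; by `S_UF` its integral is `∫ ct(v) ∑_h ct(v + α h) dv = ∑_h G(α h)` (finite sum:
`|α h| ≤ y - x`); and `∫_0^α sm = ∫ f`, `∫ G = (∫ f)²`. -/
def S_UNF : Prop := ∀ f : ℝ → ℝ, Continuous f → (∀ t, 0 ≤ f t) → ∀ x y α : ℝ, x ≤ y → 0 < α →
  IntervalIntegrable (fun β => dd f x y α β ^ 2) volume 0 α ∧
  ∫ β in (0:ℝ)..α, dd f x y α β ^ 2 = (∑' h : ℤ, GG f x y (α * h)) - (∫ w, GG f x y w) / α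

/-- **6 MS.** Measurability on rectangles (there `sm` is a fixed finite sum over `|n| ≤ (|x| + |y| + B)/a + 1`), periodicity,
additivity in the interval (`0 < α`: finite sums). -/
def S_MS : Prop :=
  (∀ (f : ℝ → ℝ) (x y a B : ℝ), Continuous f → 0 < a →
    AEMeasurable (fun p : ℝ × ℝ => dd f x y p.1 p.2) (volume.restrict (Icc a (2 * a) ×ˢ Icc (-B) B))) ∧
  (∀ (f : ℝ → ℝ) (x y α β : ℝ), dd f x y α (β + α) = dd f x y α β) ∧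
  (∀ (f : ℝ → ℝ) (x y z α β : ℝ), Continuous f → x ≤ y → y ≤ z → 0 < α →
    dd f x z α β = dd f x y α β + dd f y z α β)

/-- **7 L2.** The mean square over a rectangle: for `α ∈ [a, 2a]` the integral over `β ∈ [-B, B]` is at most `(2B/a + 2)` times the one
over `[0, α]` (periodicity), then `S_UNF` and `S_AVG` with `G = GG f x y`, `K = ∫ f²` (`y - x ≤ X`). -/
def S_L2 : Prop := ∀ a B : ℝ, 0 < a → 0 < B → ∃ C : ℝ, 0 < C ∧ ∀ f : ℝ → ℝ, Continuous f → (∀ t, 0 ≤ f t) →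
  ∀ x y X : ℝ, 0 ≤ x → x ≤ y → y ≤ X → 1 ≤ X →
  ∫⁻ p in Icc a (2 * a) ×ˢ Icc (-B) B, ENNReal.ofReal (dd f x y p.1 p.2 ^ 2) ≤
    ENNReal.ofReal (C * (1 + Real.log X) * ∫ t in x..y, f t ^ 2)

/-- **8 DYA.** The dyadic trick: `(0, y]` with `y ≤ 2^m` is a disjoint union of at most one dyadic interval of each length `2^j`,
`0 ≤ j ≤ m`; Cauchy-Schwarz. (Induction on `m` is easiest.) -/
def S_DYA : Prop := ∀ D : ℕ → ℕ → ℝ, (∀ u v w, u ≤ v → v ≤ w → D u w = D u v + D v w) → ∀ m y : ℕ, y ≤ 2 ^ m →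
  D 0 y ^ 2 ≤ (m + 1) * ∑ j ∈ Finset.range (m + 1), ∑ i ∈ Finset.range (2 ^ (m - j)), D (i * 2 ^ j) ((i + 1) * 2 ^ j) ^ 2

/-- the moment hypothesis `∫_0^T f² ≤ C T^(A + ε)` -/
def Mom (f : ℝ → ℝ) (A : ℝ) : Prop :=
  ∀ ε : ℝ, 0 < ε → ∃ C : ℝ, ∀ T : ℝ, 1 ≤ T → ∫ t in (0:ℝ)..T, f t ^ 2 ≤ C * T ^ (A + ε)

/-- **9 BC.** From `S_L2`, `S_DYA`, `S_MS`: `∫∫_R max_{y ≤ 2^m} D_y² ≤ C (m+1)^3 ∫_0^{2^m} f²` (at each level `j` the dyadic intervals are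
disjoint parts of `(0, 2^m]`), so with `Mom` and Borel-Cantelli (or: the sum over `m` of `2^(-m(A + 2ε))` times it is integrable, hence
finite almost everywhere) `|D_y| ≤ C y^(A/2 + ε)` for almost all `(α, β)` in the rectangle; countably many `ε`. -/
def S_BC : Prop := ∀ (f : ℝ → ℝ) (A : ℝ), Continuous f → (∀ t, 0 ≤ f t) → 0 ≤ A → Mom f A → ∀ a B : ℝ, 0 < a → 0 < B →
  ∀ᵐ p : ℝ × ℝ ∂(volume.restrict (Icc a (2 * a) ×ˢ Icc (-B) B)), ∀ ε : ℝ, 0 < ε → ∃ C : ℝ, ∀ y : ℕ, 1 ≤ y →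
    |dd f 0 y p.1 p.2| ≤ C * (y : ℝ) ^ (A / 2 + ε)

/-- **10 GEN.** From `S_BC` (countably many rectangles `a = 2^i`, `B = j`): first all real `X ≥ 1` (`sm f 0 X` is monotone in `X`, and
`∫_y^{y+1} f ≤ (∫ f²)^(1/2)`), then `X = α N + β`: the sum over `1 ≤ n ≤ N` differs from `sm f 0 X` by finitely many terms (independent of
`N`), and `∫_{αN}^{αN+β} f ≤ (|β| ∫ f²)^(1/2)`. -/
def S_GEN : Prop := ∀ (f : ℝ → ℝ) (A : ℝ), Continuous f → (∀ t, 0 ≤ f t) → 0 ≤ A → Mom f A →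
  ∀ᵐ p : ℝ × ℝ, 0 < p.1 → ∀ ε : ℝ, 0 < ε → ∃ C : ℝ, ∀ N : ℕ, 1 ≤ N →
    |(∑ n ∈ Finset.Icc 1 N, f (p.1 * n + p.2)) - (∫ t in (0:ℝ)..(p.1 * N), f t) / p.1| ≤ C * (N : ℝ) ^ (A / 2 + ε)

/-- **11 ZM.** Moments of zeta: `|ζ(1/2+it)| ≤ C (1+t)^(1/6+δ)` (`Pool.Agent.TH809.MZ.growth_weyl`) and
`Pool.Agent.TH158.FM.fourth_all`: `∫_0^T |ζ|^4 ≤ (4/5) T log^4 T` (see `Pool.Agent.D0H82.FB.FM` for a use of both). -/
def S_ZM : Prop := ∀ k : ℕ, 1 ≤ k → Mom (fun t : ℝ => ‖riemannZeta (1 / 2 + Complex.I * t)‖ ^ (2 * k)) ((2 * k + 1) / 3)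

/-- **12 LOGP.** Polynomials in `log (t / 2π)`: integrable at `0` (`|log t|^n ≤ C t^(-1/2)`), and of size `t^ε` for `t ≥ 1`. -/
def S_LOGP : Prop := ∀ P : Polynomial ℝ,
  (∀ T : ℝ, 0 ≤ T → IntervalIntegrable (fun t : ℝ => P.eval (Real.log (t / (2 * Real.pi)))) volume 0 T) ∧
  ∀ ε : ℝ, 0 < ε → ∃ C : ℝ, ∀ t : ℝ, 1 ≤ t → |P.eval (Real.log (t / (2 * Real.pi)))| ≤ C * t ^ ε

/-- **13 EQV.** From `S_GEN` with `A = 1` and `S_LOGP`. `⇒`: `T = α N` (the finitely many `N` with `α N < 1` go into `C`). `⇐`: choose one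
`(α, β)` with `α > 0` for which both the hypothesis and `S_GEN` hold; `T` is between `α N` and `α (N + 1)`, and the integrals of `f` and
of the polynomial over `[α N, T]` are `O(T^(1/2 + ε))` (Cauchy-Schwarz and `Mom f 1`; `S_LOGP`). -/
def S_EQV : Prop := ∀ (f : ℝ → ℝ) (P : Polynomial ℝ), Continuous f → (∀ t, 0 ≤ f t) → Mom f 1 →
  ((∀ ε : ℝ, 0 < ε → ∃ C : ℝ, ∀ T : ℝ, 1 ≤ T →
      |(∫ t in (0:ℝ)..T, f t) - ∫ t in (0:ℝ)..T, P.eval (Real.log (t / (2 * Real.pi)))| ≤ C * T ^ (1 / 2 + ε)) ↔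
    ∀ᵐ p : ℝ × ℝ, 0 < p.1 → ∀ ε : ℝ, 0 < ε → ∃ C : ℝ, ∀ N : ℕ, 1 ≤ N →
      |(∑ n ∈ Finset.Icc 1 N, f (p.1 * n + p.2)) -
        (∫ t in (0:ℝ)..(p.1 * N), P.eval (Real.log (t / (2 * Real.pi)))) / p.1| ≤ C * (N : ℝ) ^ (1 / 2 + ε))

end

end Pool.Agent.D0H44.DM
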