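import Pool.Agent.D0H44.DM.Stm

set_option autoImplicit false

/-!
Discrete moments, round 2: for almost every `α` and EVERY `β` (problem MP_07318d_nt, slot 4). Statements with proofs in words.
-/

namespace Pool.Agent.D0H44.DM

open MeasureTheory Set Filter

noncomputable section

/-- positive part -/
def ps (g : ℝ → ℝ) (t : ℝ) : ℝ := max (g t) 0

/-- negative part -/
def ng (g : ℝ → ℝ) (t : ℝ) : ℝ := max (-g t) 0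

/-- **14 SUP.** Let `F(β) = sm f 0 y α β` (periodic with period `α`, mean `(1/α) ∫_0^y f` over a period), so `D = F - mean`. For
`b < β < b + α`: `F(β) - F(b) = ∫_b^β E(u) du +` jumps, `E(u) = sm (deriv f) 0 y α u`; at most one point enters at `0` and at most one
leaves at `y`, so `|F(β) - F(b)| ≤ ∫_period |E| + f 0 + f y`. And `E = D_{f'+} - D_{f'-} + (f y - f 0)/α` (additivity of `dd` in `f`,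
`∫_0^y f' = f y - f 0`), so `∫_period |E| ≤ ∫ |D_{f'+}| + ∫ |D_{f'-}| + f 0 + f y`. Average over `b`. (Or: for each `n` the difference of
`f(α n + β)` and `(1/α) ∫` over the cell is `∫ f' · saw`, sum over `n`.) -/
def S_SUP : Prop := ∀ f : ℝ → ℝ, ContDiff ℝ 1 f → (∀ t, 0 ≤ f t) → ∀ y α β : ℝ, 0 ≤ y → 0 < α →
  |dd f 0 y α β| ≤ (∫ b in (0:ℝ)..α, |dd (ps (deriv f)) 0 y α b|) + (∫ b in (0:ℝ)..α, |dd (ng (deriv f)) 0 y α b|) +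
    2 * (f 0 + f y)

/-- **15 BC2.** As `S_BC` (take `B = 2a`, so `[0, α] ⊆ [-B, B]`), but Borel-Cantelli in `α` only: with the majorant `Φ_m(α, b) ≥ D_y²`
(`y ≤ 2^m`) of `S_BC` put `Ψ_m(α) = ∫ Φ_m(α, b) db`; `∫ Ψ_m ≤ C (m+1)^3 ∫_0^{2^m} g²`, and `(∫_0^α |D_y|)² ≤ α ∫_0^α D_y² ≤ α Ψ_m(α)`. -/
def S_BC2 : Prop := ∀ (g : ℝ → ℝ) (A : ℝ), Continuous g → (∀ t, 0 ≤ g t) → 0 ≤ A → Mom g A → ∀ a : ℝ, 0 < a →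
  ∀ᵐ α : ℝ ∂(volume.restrict (Icc a (2 * a))), ∀ ε : ℝ, 0 < ε → ∃ C : ℝ, ∀ y : ℕ, 1 ≤ y →
    ∫ b in (0:ℝ)..α, |dd g 0 y α b| ≤ C * (y : ℝ) ^ (A / 2 + ε)

/-- **16 PT.** Pointwise bound: `f(s)² ≤ ∫_t^{t+1} f²` for some `s` in `[t, t+1]`, and `f(t)² - f(s)² ≤ ∫_t^{t+1} 2 |f f'| ≤ ∫ (f² + f'²)`. -/
def S_PT : Prop := ∀ (f : ℝ → ℝ) (A : ℝ), ContDiff ℝ 1 f → (∀ t, 0 ≤ f t) → 0 ≤ A → Mom f A → Mom (deriv f) A →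
  ∀ ε : ℝ, 0 < ε → ∃ C : ℝ, ∀ t : ℝ, 1 ≤ t → f t ≤ C * t ^ (A / 2 + ε)

/-- **17 GEN2.** From `S_BC2`, `S_SUP`, `S_PT`: for almost every `α > 0` (countably many intervals `[a, 2a]`; `ps`, `ng` of `deriv f` are
continuous, nonnegative, with squares `≤ (deriv f)²`) the bound for `dd f 0 y α β`, `y` a positive integer, uniformly in `β`; then real `X`
(monotonicity of `sm` in the interval, `∫_y^{y+1} f ≤ (∫ f²)^(1/2)`), then `X = α N + β` with `|β| ≤ B` as in `S_GEN`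
(finitely many terms, bounded uniformly for `|β| ≤ B`). -/
def S_GEN2 : Prop := ∀ (f : ℝ → ℝ) (A : ℝ), ContDiff ℝ 1 f → (∀ t, 0 ≤ f t) → 0 ≤ A → Mom f A → Mom (deriv f) A →
  ∀ᵐ α : ℝ, 0 < α → ∀ B ε : ℝ, 0 < ε → ∃ C : ℝ, ∀ β : ℝ, |β| ≤ B → ∀ N : ℕ, 1 ≤ N →
    |(∑ n ∈ Finset.Icc 1 N, f (α * n + β)) - (∫ t in (0:ℝ)..(α * N), f t) / α| ≤ C * (N : ℝ) ^ (A / 2 + ε)

/-- the zeta function on the critical line -/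
def zl (t : ℝ) : ℂ := riemannZeta (1 / 2 + Complex.I * t)

/-- the zeta function on the line `1/2 + δ` -/
def zs (δ t : ℝ) : ℂ := riemannZeta (1 / 2 + δ + Complex.I * t)

/-- the derivative of the zeta function on the critical line -/
def zd (t : ℝ) : ℂ := deriv riemannZeta (1 / 2 + Complex.I * t)

/-- **18 KD.** Cauchy's formula in the strip: with `s = 1/2 + it`,
`ζ'(s) = (1/2πi) (∫_{(1/2+δ)} - ∫_{(1/2-δ)}) ζ(w) e^{(w-s)²} (w-s)^{-2} dw` (rectangles; polynomial growth of zeta in the strip; the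
residue at `w = s` is the derivative of `ζ(w) e^{(w-s)²}` at `s`); on the lines `|w - s| ≥ δ`, `|e^{(w-s)²}| ≤ e^{δ²} e^{-x²}`. -/
def S_KD : Prop := ∀ δ : ℝ, 0 < δ → δ ≤ 1 / 4 → ∃ C : ℝ, 0 < C ∧ ∀ t : ℝ,
  Integrable (fun x : ℝ => (‖zs δ (t + x)‖ + ‖zs (-δ) (t + x)‖) * Real.exp (-x ^ 2)) ∧
  ‖zd t‖ ≤ C * ∫ x : ℝ, (‖zs δ (t + x)‖ + ‖zs (-δ) (t + x)‖) * Real.exp (-x ^ 2)

/-- **19 KL.** With `s = 1/2 + δ + it`: `ζ(s) + (residue at w = 1) = (1/2πi) (∫_{(2)} - ∫_{(1/2)}) ζ(w) e^{(w-s)²} (w-s)^{-1} dw`; the residue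
`e^{(1-s)²}/(1-s)` and the integral over `Re w = 2` are bounded. -/
def S_KL : Prop := ∀ δ : ℝ, 0 < δ → δ ≤ 1 / 4 → ∃ C : ℝ, 0 < C ∧ ∀ t : ℝ,
  Integrable (fun x : ℝ => ‖zl (t + x)‖ * Real.exp (-x ^ 2)) ∧
  ‖zs δ t‖ ≤ C * (1 + ∫ x : ℝ, ‖zl (t + x)‖ * Real.exp (-x ^ 2))

/-- **20 KF.** The functional equation (`Pool.Agent.H448R2.GC.zeta_fe`, `Pool.Agent.H448R2.GC.XX_upper`, conjugation). -/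
def S_KF : Prop := ∀ δ : ℝ, 0 < δ → δ ≤ 1 / 4 → ∃ C : ℝ, 0 < C ∧ ∀ t : ℝ, ‖zs (-δ) t‖ ≤ C * (1 + |t|) ^ δ * ‖zs δ t‖

/-- **21 KP.** From `S_KD`, `S_KL`, `S_KF`: `‖zd t‖ ≤ C (1+|t|)^δ ∫ (1+|x|) e^{-x²} (1 + ∫ ‖zl(t+x+u)‖ e^{-u²} du) dx`; with `v = x + u`:
`x² + u² ≥ v²/2`, so `e^{-x²-u²} ≤ e^{-v²/4} e^{-x²/2}`, hence `≤ C (1+|t|)^δ (1 + ∫ ‖zl(t+v)‖ e^{-v²/4} dv)`; Hölder for the power `p`. -/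
def S_KP : Prop := ∀ δ : ℝ, 0 < δ → δ ≤ 1 / 4 → ∀ p : ℕ, 1 ≤ p → ∃ C : ℝ, 0 < C ∧ ∀ t : ℝ,
  Integrable (fun x : ℝ => ‖zl (t + x)‖ ^ p * Real.exp (-(x ^ 2 / 4))) ∧
  ‖zd t‖ ^ p ≤ C * (1 + |t|) ^ (p * δ) * (1 + ∫ x : ℝ, ‖zl (t + x)‖ ^ p * Real.exp (-(x ^ 2 / 4)))

/-- **22 ZD.** Moments of the derivative, from `S_KP` with `p = 2m` and `2mδ ≤ ε/2`:
`∫_0^T ∫ ‖zl(t+x)‖^{2m} e^{-x²/4} dx dt = ∫ e^{-x²/4} ∫_x^{T+x} ‖zl‖^{2m} dx`, and `∫_x^{T+x} ≤ 2 ∫_0^{T+|x|} ≤ C (T + |x| + 1)^{A+ε/2} ≤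
C T^{A+ε/2} (2+|x|)^{A+ε/2}` (`‖zl‖` is even). `A ≥ 1` because of the term `∫_0^T 1`. -/
def S_ZD : Prop := ∀ m : ℕ, 1 ≤ m → ∀ A : ℝ, 1 ≤ A →
  (∀ ε : ℝ, 0 < ε → ∃ C : ℝ, ∀ T : ℝ, 1 ≤ T → ∫ t in (0:ℝ)..T, ‖zl t‖ ^ (2 * m) ≤ C * T ^ (A + ε)) →
  ∀ ε : ℝ, 0 < ε → ∃ C : ℝ, ∀ T : ℝ, 1 ≤ T → ∫ t in (0:ℝ)..T, ‖zd t‖ ^ (2 * m) ≤ C * T ^ (A + ε)

/-- **23 FD.** The derivative of `|ζ(1/2+it)|^{2k}`: `ContDiff` (`normSq` of a real-analytic function), `|f'| ≤ 2k |ζ|^{2k-1} |ζ'|`, and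
`a^{4k-2} b² ≤ a^{4k} + b^{4k}`. -/
def S_FD : Prop := ∀ k : ℕ, 1 ≤ k → ContDiff ℝ 1 (fun t : ℝ => ‖zl t‖ ^ (2 * k)) ∧ Continuous zd ∧
  ∃ C : ℝ, 0 < C ∧ ∀ t : ℝ, deriv (fun t : ℝ => ‖zl t‖ ^ (2 * k)) t ^ 2 ≤ C * (‖zl t‖ ^ (4 * k) + ‖zd t‖ ^ (4 * k))

/-- the continuous formula -/
def CF (f : ℝ → ℝ) (P : Polynomial ℝ) : Prop := ∀ ε : ℝ, 0 < ε → ∃ C : ℝ, ∀ T : ℝ, 1 ≤ T →
  |(∫ t in (0:ℝ)..T, f t) - ∫ t in (0:ℝ)..T, P.eval (Real.log (t / (2 * Real.pi)))| ≤ C * T ^ (1 / 2 + ε)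

/-- the discrete formula -/
def DF (f : ℝ → ℝ) (P : Polynomial ℝ) (α β : ℝ) : Prop := ∀ ε : ℝ, 0 < ε → ∃ C : ℝ, ∀ N : ℕ, 1 ≤ N →
  |(∑ n ∈ Finset.Icc 1 N, f (α * n + β)) - (∫ t in (0:ℝ)..(α * N), P.eval (Real.log (t / (2 * Real.pi)))) / α| ≤
    C * (N : ℝ) ^ (1 / 2 + ε)

/-- **24 EQV2.** From `S_GEN2` with `A = 1` and `S_LOGP`, as `S_EQV`: for one `α` with the property of `S_GEN2` the continuous formula is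
equivalent to the discrete one for any single `β`. -/
def S_EQV2 : Prop := ∀ (f : ℝ → ℝ) (P : Polynomial ℝ), ContDiff ℝ 1 f → (∀ t, 0 ≤ f t) → Mom f 1 → Mom (deriv f) 1 →
  (CF f P ↔ ∀ᵐ α : ℝ, 0 < α → ∀ β : ℝ, DF f P α β) ∧ (CF f P ↔ ¬ ∀ᵐ α : ℝ, 0 < α → ∀ β : ℝ, ¬ DF f P α β)

end

end Pool.Agent.D0H44.DM
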